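import Pool.Agent.Helper92.RECT.Goals2

/-!
# The local process follows the machine
-/

namespace Pool.Agent.Helper30.RECT

open Pool.Agent.Helper92.RECT
open Pool.Agent.Helper65.LinSpace Pool.Agent.Helper78.Mpc Pool.Agent.Helper28.Ram
open Pool.Agent.Helper65.OH

section cnt

variable (p : ℕ → Prop)

theorem cnt_self (a : ℕ) : {u : ℕ | a ≤ u ∧ u < a ∧ p u}.ncard = 0 := by
  have : {u : ℕ | a ≤ u ∧ u < a ∧ p u} = ∅ := by
    ext u
    simp only [Set.mem_ofPred_eq, Set.mem_empty_iff_false, iff_false]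
    rintro ⟨h1, h2, -⟩
    omega
  rw [this, Set.ncard_empty]

theorem cnt_fin (a b : ℕ) : {u : ℕ | a ≤ u ∧ u < b ∧ p u}.Finite :=
  (Set.finite_lt_nat b).subset fun _ hu => hu.2.1

theorem cnt_pos {a b : ℕ} (hab : a ≤ b) (hp : p b) :
    {u : ℕ | a ≤ u ∧ u < b + 1 ∧ p u}.ncard = {u : ℕ | a ≤ u ∧ u < b ∧ p u}.ncard + 1 := by
  have h : {u : ℕ | a ≤ u ∧ u < b + 1 ∧ p u} = insert b {u : ℕ | a ≤ u ∧ u < b ∧ p u} := by
    ext u
    simp only [Set.mem_ofPred_eq, Set.mem_insert_iff]
    constructor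
    · rintro ⟨h1, h2, h3⟩
      by_cases hu : u = b
      · exact Or.inl hu
      · exact Or.inr ⟨h1, by omega, h3⟩
    · rintro (rfl | ⟨h1, h2, h3⟩)
      · exact ⟨hab, by omega, hp⟩
      · exact ⟨h1, by omega, h3⟩
  rw [h, Set.ncard_insert_of_notMem (fun hb => by
    have := hb.2.1
    omega) (cnt_fin p a b)]

theorem cnt_neg {a b : ℕ} (hp : ¬p b) :
    {u : ℕ | a ≤ u ∧ u < b + 1 ∧ p u}.ncard = {u : ℕ | a ≤ u ∧ u < b ∧ p u}.ncard := by
  have h : {u : ℕ | a ≤ u ∧ u < b + 1 ∧ p u} = {u : ℕ | a ≤ u ∧ u < b ∧ p u} := by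
    ext u
    simp only [Set.mem_ofPred_eq]
    constructor
    · rintro ⟨h1, h2, h3⟩
      refine ⟨h1, ?_, h3⟩
      by_contra hu
      have : u = b := by omega
      exact hp (this ▸ h3)
    · rintro ⟨h1, h2, h3⟩
      exact ⟨h1, by omega, h3⟩
  rw [h]

theorem cnt_mono {a b c : ℕ} (hbc : b ≤ c) :
    {u : ℕ | a ≤ u ∧ u < b ∧ p u}.ncard ≤ {u : ℕ | a ≤ u ∧ u < c ∧ p u}.ncard :=
  Set.ncard_le_ncard (fun _ hu => ⟨hu.1, lt_of_lt_of_le hu.2.1 hbc, hu.2.2⟩) (cnt_fin p a c)

theorem cnt_lt {a b c : ℕ} (hab : a ≤ b) (hbc : b < c) (hp : p b) :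
    {u : ℕ | a ≤ u ∧ u < b ∧ p u}.ncard < {u : ℕ | a ≤ u ∧ u < c ∧ p u}.ncard := by
  have h1 := cnt_mono p (a := a) (Nat.succ_le_of_lt hbc)
  have h2 := cnt_pos p hab hp
  have h3 : b.succ = b + 1 := rfl
  rw [h3] at h1
  omega

/-- All smaller numbers occur. -/
theorem cnt_ivt {a b : ℕ} (hab : a ≤ b) {j : ℕ} (hj : j ≤ {u : ℕ | a ≤ u ∧ u < b ∧ p u}.ncard) :
    ∃ t, a ≤ t ∧ t ≤ b ∧ {u : ℕ | a ≤ u ∧ u < t ∧ p u}.ncard = j := by
  induction b, hab using Nat.le_induction with
  | base =>
    rw [cnt_self] at hj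
    exact ⟨a, le_rfl, le_rfl, by rw [cnt_self]; omega⟩
  | succ b hab ih =>
    by_cases hle : j ≤ {u : ℕ | a ≤ u ∧ u < b ∧ p u}.ncard
    · obtain ⟨t, h1, h2, h3⟩ := ih hle
      exact ⟨t, h1, by omega, h3⟩
    · refine ⟨b + 1, by omega, le_rfl, ?_⟩
      by_cases hp : p b
      · rw [cnt_pos p hab hp] at hj ⊢
        omega
      · rw [cnt_neg p hp] at hj
        omega

end cnt

variable {D : ℕ}

theorem fst_eq (hD : 0 < D) (p : Fin D → ℤ) : fst p = p ⟨0, hD⟩ := by
  unfold fst
  rw [dif_pos hD]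

theorem fst_shf (hD : 0 < D) (z : ℤ) (p : Fin D → ℤ) : fst (shf z p) = fst p + z := by
  rw [fst_eq hD, fst_eq hD]
  simp [shf]

theorem shf_shf (z z' : ℤ) (p : Fin D → ℤ) : shf z (shf z' p) = shf (z' + z) p := by
  funext k
  simp only [shf]
  split_ifs
  · ring
  · rfl

theorem shf_zero (p : Fin D → ℤ) : shf 0 p = p := by
  funext k
  simp [shf]

theorem set0_shf (z z' : ℤ) (p : Fin D → ℤ) : set0 (shf z p) z' = set0 p z' := by
  funext k
  simp only [set0, shf]
  split_ifs <;> rfl

theorem set0_set0 (z z' : ℤ) (p : Fin D → ℤ) : set0 (set0 p z) z' = set0 p z' := by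
  funext k
  simp only [set0]
  split_ifs <;> rfl

theorem set0_eq_shf (hD : 0 < D) {z z' : ℤ} {p : Fin D → ℤ} (h : fst p + z = z') :
    set0 p z' = shf z p := by
  funext k
  simp only [set0, shf]
  split_ifs with hk
  · have : k = ⟨0, hD⟩ := Fin.ext hk
    rw [← h, fst_eq hD, this]
  · rfl

theorem mv_bd (q : List Bool) (k : ℕ) : -1 ≤ mv q k ∧ mv q k ≤ 1 := by
  unfold mv
  split_ifs <;> simp

theorem fst_step (hD : 0 < D) (A : OneHead D) (w y : List Bool) (C : Conf D) :
    fst C.h - 1 ≤ fst (A.step w y C).h ∧ fst (A.step w y C).h ≤ fst C.h + 1 := by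
  rw [fst_eq hD, fst_eq hD]
  have h := mv_bd (A.next (A.inp w y C.q (C.M C.h))) 0
  have h2 : (A.step w y C).h ⟨0, hD⟩ = C.h ⟨0, hD⟩ + mv (A.next (A.inp w y C.q (C.M C.h))) 0 := rfl
  rw [h2]
  constructor <;> linarith [h.1, h.2]

/-- Outside of the slab a step does not change the contents of the cells of the slab. -/
theorem lM_out (hD : 0 < D) (A : OneHead D) (w y : List Bool) (P P' : ℤ) (C : Conf D)
    (hC : ¬(P ≤ fst C.h ∧ fst C.h < P')) : lM P P' (A.step w y C).M = lM P P' C.M := by
  funext p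
  unfold lM
  split_ifs with hp
  · have hne : shf P p ≠ C.h := by
      intro h
      apply hC
      rw [← h, fst_shf hD]
      constructor <;> linarith [hp.1, hp.2]
    show Function.update C.M C.h _ (shf P p) = _
    rw [Function.update_of_ne hne]
  · rfl

theorem lM_at (hD : 0 < D) (P P' : ℤ) (C : Conf D) (hC : P ≤ fst C.h ∧ fst C.h < P') :
    lM P P' C.M (shf (-P) C.h) = C.M C.h := by
  unfold lM
  rw [if_pos, shf_shf]
  · rw [show -P + P = (0 : ℤ) by ring, shf_zero]
  · rw [fst_shf hD]
    constructor <;> linarith [hC.1, hC.2]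

/-- A step inside, in local coordinates. -/
theorem step_loc (hD : 0 < D) (A : OneHead D) (w y : List Bool) (P P' : ℤ) (C : Conf D)
    (hC : P ≤ fst C.h ∧ fst C.h < P') :
    A.step w y ⟨C.q, shf (-P) C.h, lM P P' C.M⟩ =
      ⟨(A.step w y C).q, shf (-P) (A.step w y C).h, lM P P' (A.step w y C).M⟩ := by
  unfold OneHead.step
  simp only [lM_at hD P P' C hC]
  congr 1
  · funext k
    simp only [shf]
    split_ifs
    · ring
    · rfl
  · funext p
    by_cases hp : p = shf (-P) C.h
    · subst hp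
      rw [Function.update_self]
      unfold lM
      rw [if_pos, shf_shf]
      · rw [show -P + P = (0 : ℤ) by ring, shf_zero, Function.update_self]
      · rw [fst_shf hD]
        constructor <;> linarith [hC.1, hC.2]
    · rw [Function.update_of_ne hp]
      unfold lM
      split_ifs with h
      · have hne : shf P p ≠ C.h := by
          intro h'
          apply hp
          rw [← h', shf_shf, show P + -P = (0 : ℤ) by ring, shf_zero]
        rw [Function.update_of_ne hne]
      · rfl

theorem recs_some (A : OneHead D) (w y : List Bool) (P : ℤ) {t₀ t₁ t : ℕ} (h0 : t₀ ≤ t)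
    (h1 : t < t₁) (hc : Crs A w y P t) :
    recs A w y P t₀ t₁ (nc A w y P t₀ t) =
      some ((A.conf w y (t + 1)).q, set0 (A.conf w y (t + 1)).h 0) := by
  have hex : ∃ u, t₀ ≤ u ∧ u < t₁ ∧ Crs A w y P u ∧ nc A w y P t₀ u = nc A w y P t₀ t :=
    ⟨t, h0, h1, hc, rfl⟩
  have hu : ∀ u, t₀ ≤ u ∧ u < t₁ ∧ Crs A w y P u ∧ nc A w y P t₀ u = nc A w y P t₀ t → u = t := by
    rintro u ⟨h2, h3, h4, h5⟩
    unfold nc at h5
    rcases lt_trichotomy u t with h | h | h
    · exact absurd h5 (ne_of_lt (cnt_lt (Crs A w y P) h2 h h4))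
    · exact h
    · exact absurd h5.symm (ne_of_lt (cnt_lt (Crs A w y P) h0 h hc))
  unfold recs
  rw [dif_pos hex, hu _ hex.choose_spec]

theorem recs_none (A : OneHead D) (w y : List Bool) (P : ℤ) (t₀ t₁ : ℕ) :
    recs A w y P t₀ t₁ (nc A w y P t₀ t₁) = none := by
  unfold recs
  rw [dif_neg]
  rintro ⟨u, h2, h3, h4, h5⟩
  unfold nc at h5
  exact absurd h5 (ne_of_lt (cnt_lt (Crs A w y P) h2 h3 h4))

theorem lcf_md (P P' : ℤ) (i j t : ℕ) (C : Conf D) : (lcf P P' i j t C).md ≠ 0 := by
  unfold lcf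
  split_ifs <;> simp

theorem lcf_i (P P' : ℤ) (i j t : ℕ) (C : Conf D) : (lcf P P' i j t C).i = i := by
  unfold lcf
  split_ifs <;> rfl

theorem lcf_j (P P' : ℤ) (i j t : ℕ) (C : Conf D) : (lcf P P' i j t C).j = j := by
  unfold lcf
  split_ifs <;> rfl

theorem lcf_t (P P' : ℤ) (i j t : ℕ) (C : Conf D) : (lcf P P' i j t C).t = t := by
  unfold lcf
  split_ifs <;> rfl

/-- After the end the next step is a failure. -/
theorem lstep_fin (A : OneHead D) (w y : List Bool) (σ : Slb D) (X : LConf D) (h : LFin σ X) :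
    (lstep A w y σ X).md = 0 := by
  obtain ⟨-, h1, h2, h3⟩ := h
  unfold lstep
  split_ifs with h4 h5 h6 h7
  · rfl
  · exact absurd (Or.inl h1) h5
  · rw [h2]
    rfl
  · rw [h3]
    rfl
  · rfl

/-- One step inside of the slab. -/
theorem step_in (hD : 0 < D) (A : OneHead D) (w y : List Bool) (P P' : ℤ)
    (σ : Slb D) (hW : σ.W = P' - P) (C : Conf D) (i j m : ℕ)
    (hacc : C.q.head? ≠ some true) (hm : m ≠ σ.n) (hC : P ≤ fst C.h ∧ fst C.h < P')
    (hC' : P ≤ fst (A.step w y C).h ∧ fst (A.step w y C).h < P') :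
    lstep A w y σ (lcf P P' i j m C) = lcf P P' i j (m + 1) (A.step w y C) := by
  have e1 : lcf P P' i j m C = ⟨1, i, j, m, ⟨C.q, shf (-P) C.h, lM P P' C.M⟩⟩ := by
    unfold lcf
    rw [if_pos hC]
  have e2 : lcf P P' i j (m + 1) (A.step w y C) = ⟨1, i, j, m + 1,
      ⟨(A.step w y C).q, shf (-P) (A.step w y C).h, lM P P' (A.step w y C).M⟩⟩ := by
    unfold lcf
    rw [if_pos hC']
  rw [e1, e2]
  unfold lstep
  rw [if_pos rfl, if_neg (by rintro (h | h); exacts [hm h, hacc h])]
  show Pool.Agent.Helper92.RECT.inner σ _ (A.step w y ⟨C.q, shf (-P) C.h, lM P P' C.M⟩) = _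
  rw [step_loc hD A w y P P' C hC]
  unfold Pool.Agent.Helper92.RECT.inner
  rw [if_neg, if_neg]
  · show ¬(σ.W ≤ fst (shf (-P) (A.step w y C).h))
    rw [fst_shf hD, hW]
    intro h
    linarith [hC'.2]
  · show ¬(fst (shf (-P) (A.step w y C).h) < 0)
    rw [fst_shf hD]
    intro h
    linarith [hC'.1]

/-- One step out of the slab to the left. -/
theorem step_outL (hD : 0 < D) (A : OneHead D) (w y : List Bool) (P P' : ℤ)
    (σ : Slb D) (C : Conf D) (i j m : ℕ)
    (hacc : C.q.head? ≠ some true) (hm : m ≠ σ.n) (hC : P ≤ fst C.h ∧ fst C.h < P')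
    (hC' : fst (A.step w y C).h < P)
    (hL : σ.L i = some ((A.step w y C).q, set0 (A.step w y C).h 0)) :
    lstep A w y σ (lcf P P' i j m C) = lcf P P' (i + 1) j (m + 1) (A.step w y C) := by
  have e1 : lcf P P' i j m C = ⟨1, i, j, m, ⟨C.q, shf (-P) C.h, lM P P' C.M⟩⟩ := by
    unfold lcf
    rw [if_pos hC]
  have e2 : lcf P P' (i + 1) j (m + 1) (A.step w y C) = ⟨2, i + 1, j, m + 1,
      ⟨[], fun _ => 0, lM P P' (A.step w y C).M⟩⟩ := by
    unfold lcf
    rw [if_neg (fun h => absurd h.1 (not_le.2 hC')), if_pos hC']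
  rw [e1, e2]
  unfold lstep
  rw [if_pos rfl, if_neg (by rintro (h | h); exacts [hm h, hacc h])]
  show Pool.Agent.Helper92.RECT.inner σ _ (A.step w y ⟨C.q, shf (-P) C.h, lM P P' C.M⟩) = _
  rw [step_loc hD A w y P P' C hC]
  unfold Pool.Agent.Helper92.RECT.inner
  rw [if_pos, if_pos]
  · show σ.L i = some ((A.step w y C).q, set0 (shf (-P) (A.step w y C).h) 0)
    rw [set0_shf, hL]
  · show fst (shf (-P) (A.step w y C).h) < 0
    rw [fst_shf hD]
    linarith

/-- One step out of the slab to the right. -/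
theorem step_outR (hD : 0 < D) (A : OneHead D) (w y : List Bool) (P P' : ℤ)
    (σ : Slb D) (hW : σ.W = P' - P) (C : Conf D) (i j m : ℕ) (hP : P < P')
    (hacc : C.q.head? ≠ some true) (hm : m ≠ σ.n) (hC : P ≤ fst C.h ∧ fst C.h < P')
    (hC' : P' ≤ fst (A.step w y C).h)
    (hR : σ.R j = some ((A.step w y C).q, set0 (A.step w y C).h 0)) :
    lstep A w y σ (lcf P P' i j m C) = lcf P P' i (j + 1) (m + 1) (A.step w y C) := by
  have e1 : lcf P P' i j m C = ⟨1, i, j, m, ⟨C.q, shf (-P) C.h, lM P P' C.M⟩⟩ := by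
    unfold lcf
    rw [if_pos hC]
  have e2 : lcf P P' i (j + 1) (m + 1) (A.step w y C) = ⟨3, i, j + 1, m + 1,
      ⟨[], fun _ => 0, lM P P' (A.step w y C).M⟩⟩ := by
    unfold lcf
    rw [if_neg (fun h => absurd h.2 (not_lt.2 hC')),
      if_neg (fun h => absurd h (not_lt.2 (hP.le.trans hC')))]
  rw [e1, e2]
  unfold lstep
  rw [if_pos rfl, if_neg (by rintro (h | h); exacts [hm h, hacc h])]
  show Pool.Agent.Helper92.RECT.inner σ _ (A.step w y ⟨C.q, shf (-P) C.h, lM P P' C.M⟩) = _
  rw [step_loc hD A w y P P' C hC]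
  unfold Pool.Agent.Helper92.RECT.inner
  rw [if_neg, if_pos, if_pos]
  · show σ.R j = some ((A.step w y C).q, set0 (shf (-P) (A.step w y C).h) 0)
    rw [set0_shf, hR]
  · show σ.W ≤ fst (shf (-P) (A.step w y C).h)
    rw [fst_shf hD, hW]
    linarith
  · show ¬(fst (shf (-P) (A.step w y C).h) < 0)
    rw [fst_shf hD]
    intro h
    linarith

/-- One step into the slab from the left. -/
theorem step_inL (hD : 0 < D) (A : OneHead D) (w y : List Bool) (P P' : ℤ)
    (σ : Slb D) (C : Conf D) (i j m : ℕ)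
    (hC : fst C.h < P)
    (hC' : P ≤ fst (A.step w y C).h ∧ fst (A.step w y C).h < P')
    (hL : σ.L i = some ((A.step w y C).q, set0 (A.step w y C).h 0)) :
    lstep A w y σ (lcf P P' i j m C) = lcf P P' (i + 1) j m (A.step w y C) := by
  have hn : ¬(P ≤ fst C.h ∧ fst C.h < P') := fun h => absurd h.1 (not_le.2 hC)
  have hs := fst_step hD A w y C
  have e1 : lcf P P' i j m C = ⟨2, i, j, m, ⟨[], fun _ => 0, lM P P' C.M⟩⟩ := by
    unfold lcf
    rw [if_neg hn, if_pos hC]
  have e2 : lcf P P' (i + 1) j m (A.step w y C) = ⟨1, i + 1, j, m,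
      ⟨(A.step w y C).q, shf (-P) (A.step w y C).h, lM P P' (A.step w y C).M⟩⟩ := by
    unfold lcf
    rw [if_pos hC']
  rw [e1, e2, lM_out hD A w y P P' C hn]
  unfold lstep
  rw [if_neg (by show ¬(2 = 1); omega), if_pos rfl]
  simp only [hL]
  rw [set0_set0, set0_eq_shf hD (z := -P)]
  omega

/-- One step into the slab from the right. -/
theorem step_inR (hD : 0 < D) (A : OneHead D) (w y : List Bool) (P P' : ℤ)
    (σ : Slb D) (hW : σ.W = P' - P) (C : Conf D) (i j m : ℕ) (hP : P < P')
    (hC : P' ≤ fst C.h)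
    (hC' : P ≤ fst (A.step w y C).h ∧ fst (A.step w y C).h < P')
    (hR : σ.R j = some ((A.step w y C).q, set0 (A.step w y C).h 0)) :
    lstep A w y σ (lcf P P' i j m C) = lcf P P' i (j + 1) m (A.step w y C) := by
  have hn : ¬(P ≤ fst C.h ∧ fst C.h < P') := fun h => absurd h.2 (not_lt.2 hC)
  have hs := fst_step hD A w y C
  have e1 : lcf P P' i j m C = ⟨3, i, j, m, ⟨[], fun _ => 0, lM P P' C.M⟩⟩ := by
    unfold lcf
    rw [if_neg hn, if_neg (fun h => absurd h (not_lt.2 (hP.le.trans hC)))]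
  have e2 : lcf P P' i (j + 1) m (A.step w y C) = ⟨1, i, j + 1, m,
      ⟨(A.step w y C).q, shf (-P) (A.step w y C).h, lM P P' (A.step w y C).M⟩⟩ := by
    unfold lcf
    rw [if_pos hC']
  rw [e1, e2, lM_out hD A w y P P' C hn]
  unfold lstep
  rw [if_neg (by show ¬(3 = 1); omega), if_neg (by show ¬(3 = 2); omega), if_pos rfl]
  simp only [hR]
  rw [set0_set0, set0_eq_shf hD (z := -P)]
  rw [hW]
  omega

/-- One step outside of the slab. -/
theorem step_out (hD : 0 < D) (A : OneHead D) (w y : List Bool) (P P' : ℤ) (hP : P < P')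
    (C : Conf D) (i j m : ℕ) (hC : ¬(P ≤ fst C.h ∧ fst C.h < P'))
    (hC' : ¬(P ≤ fst (A.step w y C).h ∧ fst (A.step w y C).h < P')) :
    (fst C.h < P ↔ fst (A.step w y C).h < P) ∧ (fst C.h < P' ↔ fst (A.step w y C).h < P') ∧
    lcf P P' i j m (A.step w y C) = lcf P P' i j m C := by
  have hs := fst_step hD A w y C
  have h1 : (fst C.h < P ↔ fst (A.step w y C).h < P) := by omega
  refine ⟨h1, by omega, ?_⟩
  unfold lcf
  rw [if_neg hC, if_neg hC', lM_out hD A w y P P' C hC]
  by_cases h : fst C.h < P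
  · rw [if_pos h, if_pos (h1.1 h)]
  · rw [if_neg h, if_neg (fun h' => h (h1.2 h'))]

theorem real : REAL_stmt := by
  intro D hD A w y P P' t₀ t₁ hP h01 hacc
  have key : ∀ t, t₀ ≤ t → t ≤ t₁ → rl A w y P P' t₀ t₁ (jt A w y P P' t₀ t) =
      lcf P P' (nc A w y P t₀ t) (nc A w y P' t₀ t) (time A w y P P' t₀ t) (A.conf w y t) := by
    intro t ht
    induction t, ht using Nat.le_induction with
    | base =>
      intro _
      unfold jt nc time
      rw [cnt_self (fun u => In A w y P P' u ∨ In A w y P P' (u + 1)), cnt_self (Crs A w y P),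
        cnt_self (Crs A w y P'), cnt_self (In A w y P P')]
      rfl
    | succ t ht ih =>
      intro ht1
      have ih := ih (by omega)
      have hlt : t < t₁ := by omega
      have hs := fst_step hD A w y (A.conf w y t)
      have hconf : A.conf w y (t + 1) = A.step w y (A.conf w y t) := rfl
      have hq : (A.conf w y t).q.head? ≠ some true := hacc t ht hlt
      have hW : (rslb A w y P P' t₀ t₁).W = P' - P := rfl
      have hm : In A w y P P' t → time A w y P P' t₀ t ≠ (rslb A w y P P' t₀ t₁).n := by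
        intro hin
        exact ne_of_lt (cnt_lt (In A w y P P') ht hlt hin)
      have hL : Crs A w y P t → (rslb A w y P P' t₀ t₁).L (nc A w y P t₀ t) =
          some ((A.step w y (A.conf w y t)).q, set0 (A.step w y (A.conf w y t)).h 0) :=
        fun h => recs_some A w y P ht hlt h
      have hR : Crs A w y P' t → (rslb A w y P P' t₀ t₁).R (nc A w y P' t₀ t) =
          some ((A.step w y (A.conf w y t)).q, set0 (A.step w y (A.conf w y t)).h 0) :=
        fun h => recs_some A w y P' ht hlt h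
      have ncp : Crs A w y P t → nc A w y P t₀ (t + 1) = nc A w y P t₀ t + 1 :=
        fun h => cnt_pos (Crs A w y P) ht h
      have ncn : ¬Crs A w y P t → nc A w y P t₀ (t + 1) = nc A w y P t₀ t :=
        fun h => cnt_neg (Crs A w y P) h
      have ncp' : Crs A w y P' t → nc A w y P' t₀ (t + 1) = nc A w y P' t₀ t + 1 :=
        fun h => cnt_pos (Crs A w y P') ht h
      have ncn' : ¬Crs A w y P' t → nc A w y P' t₀ (t + 1) = nc A w y P' t₀ t :=
        fun h => cnt_neg (Crs A w y P') h
      have tmp : In A w y P P' t → time A w y P P' t₀ (t + 1) = time A w y P P' t₀ t + 1 :=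
        fun h => cnt_pos (In A w y P P') ht h
      have tmn : ¬In A w y P P' t → time A w y P P' t₀ (t + 1) = time A w y P P' t₀ t :=
        fun h => cnt_neg (In A w y P P') h
      have jtp : (In A w y P P' t ∨ In A w y P P' (t + 1)) →
          jt A w y P P' t₀ (t + 1) = jt A w y P P' t₀ t + 1 :=
        fun h => cnt_pos (fun u => In A w y P P' u ∨ In A w y P P' (u + 1)) ht h
      have jtn : ¬(In A w y P P' t ∨ In A w y P P' (t + 1)) →
          jt A w y P P' t₀ (t + 1) = jt A w y P P' t₀ t :=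
        fun h => cnt_neg (fun u => In A w y P P' u ∨ In A w y P P' (u + 1)) h
      have rls : rl A w y P P' t₀ t₁ (jt A w y P P' t₀ t + 1) =
          lstep A w y (rslb A w y P P' t₀ t₁) (rl A w y P P' t₀ t₁ (jt A w y P P' t₀ t)) := rfl
      by_cases h1 : In A w y P P' t
      · rw [jtp (Or.inl h1), rls, ih, tmp h1]
        by_cases h2 : In A w y P P' (t + 1)
        · have c1 : ¬Crs A w y P t := by
            unfold Crs
            unfold In at h1 h2
            omega
          have c2 : ¬Crs A w y P' t := by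
            unfold Crs
            unfold In at h1 h2
            omega
          rw [ncn c1, ncn' c2, hconf]
          exact step_in hD A w y P P' _ hW _ _ _ _ hq (hm h1) h1 h2
        · by_cases h3 : fst (A.step w y (A.conf w y t)).h < P
          · have c1 : Crs A w y P t := by
              unfold Crs
              unfold In at h1 h2
              rw [hconf] at *
              omega
            have c2 : ¬Crs A w y P' t := by
              unfold Crs
              unfold In at h1 h2
              rw [hconf] at *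
              omega
            rw [ncp c1, ncn' c2, hconf]
            exact step_outL hD A w y P P' _ _ _ _ _ hq (hm h1) h1 h3 (hL c1)
          · have h4 : P' ≤ fst (A.step w y (A.conf w y t)).h := by
              unfold In at h1 h2
              rw [hconf] at *
              omega
            have c1 : ¬Crs A w y P t := by
              unfold Crs
              unfold In at h1 h2
              rw [hconf] at *
              omega
            have c2 : Crs A w y P' t := by
              unfold Crs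
              unfold In at h1 h2
              rw [hconf] at *
              omega
            rw [ncn c1, ncp' c2, hconf]
            exact step_outR hD A w y P P' _ hW _ _ _ _ hP hq (hm h1) h1 h4 (hR c2)
      · rw [tmn h1]
        by_cases h2 : In A w y P P' (t + 1)
        · rw [jtp (Or.inr h2), rls, ih]
          by_cases h3 : fst (A.conf w y t).h < P
          · have c1 : Crs A w y P t := by
              unfold Crs
              unfold In at h1 h2
              rw [hconf] at *
              omega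
            have c2 : ¬Crs A w y P' t := by
              unfold Crs
              unfold In at h1 h2
              rw [hconf] at *
              omega
            rw [ncp c1, ncn' c2, hconf]
            exact step_inL hD A w y P P' _ _ _ _ _ h3 h2 (hL c1)
          · have h4 : P' ≤ fst (A.conf w y t).h := by
              unfold In at h1 h2
              rw [hconf] at *
              omega
            have c1 : ¬Crs A w y P t := by
              unfold Crs
              unfold In at h1 h2
              rw [hconf] at *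
              omega
            have c2 : Crs A w y P' t := by
              unfold Crs
              unfold In at h1 h2
              rw [hconf] at *
              omega
            rw [ncn c1, ncp' c2, hconf]
            exact step_inR hD A w y P P' _ hW _ _ _ _ hP h4 h2 (hR c2)
        · rw [jtn (by rintro (h | h); exacts [h1 h, h2 h]), ih]
          obtain ⟨c1, c2, c3⟩ := step_out hD A w y P P' hP (A.conf w y t) (nc A w y P t₀ t)
            (nc A w y P' t₀ t) (time A w y P P' t₀ t) h1 h2
          rw [ncn (fun h => h c1), ncn' (fun h => h c2), hconf, c3]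
  refine ⟨key, ?_, ?_⟩
  · rw [key t₁ h01 le_rfl]
    refine ⟨lcf_md _ _ _ _ _ _, ?_, ?_, ?_⟩
    · rw [lcf_t]
      rfl
    · rw [lcf_i]
      exact recs_none A w y P t₀ t₁
    · rw [lcf_j]
      exact recs_none A w y P' t₀ t₁
  · have hmd : ∀ j ≤ jt A w y P P' t₀ t₁, (rl A w y P P' t₀ t₁ j).md ≠ 0 := by
      intro j hj
      obtain ⟨t, ht0, ht1, htj⟩ := cnt_ivt
        (fun u => In A w y P P' u ∨ In A w y P P' (u + 1)) h01 hj
      have htj : jt A w y P P' t₀ t = j := htj
      rw [← htj, key t ht0 ht1]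
      exact lcf_md _ _ _ _ _ _
    intro j hj
    refine ⟨hmd j hj.le, fun hf => ?_⟩
    exact hmd (j + 1) hj (lstep_fin A w y _ _ hf)

end Pool.Agent.Helper30.RECT
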